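import Pool.Agent.H515.NormIso

/-!
# The `p`-part of the class group in a `p`-extension which is nonsplit along `F / k`

Let `F / k` be an extension of number fields of degree prime to `p`, and let `k' / k` be a Galois
extension of degree a power of `p` such that each prime of `k` that ramifies in `k'` has exactly one
prime of `F` above it. If the `p`-parts of the class numbers of `F` and `k` are equal, the norm of
ideals from `F' = F k'` to `k'` induces an isomorphism of the `p`-primary parts of the class groups.

The proof is Chevalley's formula for the number of the ambiguous classes in cyclic extensions, applied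
to `F' / F` and `k' / k`, and induction on the degree.
-/

set_option autoImplicit false

namespace Pool.Agent.Results.MP_d0239a_nt.PExtensionTransfer

open NumberField IsDedekindDomain

/-- The prime `v` of `k` is ramified in `K`. -/
def Ramified {k : Type} (K : Type) [Field k] [NumberField k] [Field K] [NumberField K] [Algebra k K]
    (v : HeightOneSpectrum (𝓞 k)) : Prop :=
  ∃ w : HeightOneSpectrum (𝓞 K), v.asIdeal.map (algebraMap (𝓞 k) (𝓞 K)) ≤ w.asIdeal ^ 2

/-- The norm of ideals induces an isomorphism between the `p`-primary parts of the class groups. -/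
def NormIso (p : ℕ) (k K : Type) [Field k] [NumberField k] [Field K] [NumberField K]
    [Algebra k K] : Prop :=
  ∃ e : CommGroup.primaryComponent (ClassGroup (𝓞 K)) p ≃*
      CommGroup.primaryComponent (ClassGroup (𝓞 k)) p,
    ∀ (x : CommGroup.primaryComponent (ClassGroup (𝓞 K)) p)
      (I : nonZeroDivisors (Ideal (𝓞 K))) (J : nonZeroDivisors (Ideal (𝓞 k))),
      ClassGroup.mk0 I = (x : ClassGroup (𝓞 K)) → Ideal.relNorm (𝓞 k) (I : Ideal (𝓞 K)) = J →
      ((e x : CommGroup.primaryComponent (ClassGroup (𝓞 k)) p) : ClassGroup (𝓞 k)) =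
        ClassGroup.mk0 J

/-- Let `k ⊆ F` and `k ⊆ k'` be number fields in `F' = F k'`, `k' / k` Galois of degree a power of the
prime `p` and `[F : k]` prime to `p`. Assume that each prime of `k` that ramifies in `k'` has exactly
one prime of `F` above it, that the class numbers of `F` and of `k` are divisible by the same powers
of `p`, and, if `p = 2`, that the real places of `F` are unramified in `F'`. Then the norm induces an
isomorphism between the `p`-primary parts of the class groups of `F'` and `k'`. -/
theorem result (p : ℕ) (hp : p.Prime) (k k' F F' : Type) [Field k] [NumberField k] [Field k']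
    [NumberField k'] [Field F] [NumberField F] [Field F'] [NumberField F'] [Algebra k k']
    [Algebra k F] [Algebra k F'] [Algebra k' F'] [Algebra F F'] [IsScalarTower k k' F']
    [IsScalarTower k F F'] (hgal : IsGalois k k')
    (hcomp : IntermediateField.adjoin F (Set.range (algebraMap k' F')) = ⊤)
    (hdeg : ∃ s : ℕ, Module.finrank k k' = p ^ s) (hcop : ¬ p ∣ Module.finrank k F)
    (hns : ∀ v : HeightOneSpectrum (𝓞 k), Ramified k' v →
      ∃! w : HeightOneSpectrum (𝓞 F), w.asIdeal.comap (algebraMap (𝓞 k) (𝓞 F)) = v.asIdeal)
    (hcl : padicValNat p (classNumber F) = padicValNat p (classNumber k))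
    (hreal : p = 2 → ∀ φ : F →+* ℝ, ∃ ψ : F' →+* ℝ, ψ.comp (algebraMap F F') = φ) :
    NormIso p k' F' := by
  have hfp : Fact p.Prime := ⟨hp⟩
  obtain ⟨s, hs⟩ := hdeg
  have hc : (Module.finrank k F).Coprime p := ((Nat.Prime.coprime_iff_not_dvd hp).2 hcop).symm
  obtain ⟨S, hn1, hm1⟩ := Pool.Agent.H515.CH.sqr_comp hcomp
    (by rw [hs]; exact Nat.Coprime.pow_right _ hc)
  have T := Pool.Agent.H515.CH.transfer_gal p s k k' F F' hcomp hs hc ?_ ?_ (le_of_eq hcl)
  · exact Pool.Agent.H515.CH.prim_norm T.1 (by rw [hm1]; exact hc)
  · intro w hw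
    rw [Pool.Agent.H515.CH.ld_eq_iff]
    intro w' hw'
    have hram : Ramified k' (w.under (𝓞 k)) := by
      by_contra hcon
      apply hw
      intro u _ hle
      exact hcon ⟨u, hle⟩
    obtain ⟨w0, -, hw0⟩ := hns _ hram
    rw [hw0 w' (congrArg HeightOneSpectrum.asIdeal hw'), hw0 w rfl]
  · by_cases h2 : p = 2
    · right
      refine ⟨fun x => ?_⟩
      obtain ⟨φ, hφ⟩ := x
      exact hφ (hreal h2 φ)
    · exact Or.inl h2

end Pool.Agent.Results.MP_d0239a_nt.PExtensionTransfer
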