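import Pool.Agent.Results.MP_d0239a_nt.FrobeniusTransfer
import Pool.Agent.H515.PD

/-!
# Extensions of prime degree `l` of number fields of degree at most `l`

Let `k` be a number field of degree at most `l` and `F / k` an extension of prime degree `l` (Galois
or not). There is a Frobenius class (of the Galois closure of `F / ℚ`) such that for all but finitely
many primes `p` with this Frobenius the class groups of the layers `F_n` and `k_n` of the cyclotomic
`ℤ_p`-extensions have isomorphic `p`-parts for all `n`.

The element is found in a Sylow `l`-subgroup of the group of the normal closure of `k`: it acts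
transitively on the `l` extensions to `F` of each embedding of `k`.
-/

set_option autoImplicit false

namespace Pool.Agent.Results.MP_d0239a_nt.PrimeDegreeExtensions

open NumberField IsDedekindDomain
open Pool.Agent.Results.MP_d0239a_nt.FrobeniusTransfer

/-- Let `F / k` be an extension of number fields of prime degree `l ≥ [k : ℚ]`. There are a Galois
extension `M / ℚ` and `g ∈ Gal(M/ℚ)` such that for all but finitely many of the infinitely many primes
`p` with Frobenius element `g` the class groups of the layers `F_n` and `k_n` have isomorphic
`p`-primary parts for all `n`, also modulo the primes above `p`; so `μ = 0` holds for `p` and `F` if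
and only if it holds for `p` and `k`. -/
theorem result (k F : IntermediateField ℚ ℂ) [NumberField F] (hkF : k ≤ F) (l : ℕ) (hl : l.Prime)
    (hdeg : Module.finrank ℚ F = Module.finrank ℚ k * l) (hd : Module.finrank ℚ k ≤ l) :
    ∃ (M : IntermediateField ℚ ℂ) (_ : NumberField M) (g : M ≃ₐ[ℚ] M), IsGalois ℚ M ∧
      {p : ℕ | p.Prime ∧ IsFrob p M g}.Infinite ∧
      ∃ B : ℕ, ∀ p : ℕ, p.Prime → B < p → IsFrob p M g →
        SameTower p k F ∧ (MuZero p F ↔ MuZero p k) := by
  obtain ⟨M, hFM, hM, hMG⟩ := Pool.Agent.H515.CH.exists_closure F
  have hkf : FiniteDimensional ℚ k :=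
    FiniteDimensional.of_injective (IntermediateField.inclusion hkF).toLinearMap
      (IntermediateField.inclusion hkF).injective
  have hkN : NumberField k := Pool.Agent.H515.CH.nf hkf
  have hkM : k ≤ M := hkF.trans hFM
  let i1 := Pool.Agent.H515.CH.inc hkF
  let i2 := Pool.Agent.H515.CH.inc hFM
  let i3 := Pool.Agent.H515.CH.inc hkM
  have t1 : IsScalarTower k F M := IsScalarTower.of_algebraMap_eq fun x => rfl
  have hkl : Module.finrank k F = l := by
    have h1 : Module.finrank ℚ k * Module.finrank k F = Module.finrank ℚ F :=
      Module.finrank_mul_finrank ℚ k F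
    rw [hdeg] at h1
    exact Nat.eq_of_mul_eq_mul_left Module.finrank_pos h1
  obtain ⟨g, hg⟩ := Pool.Agent.H515.CH.exists_g (k := k) (F := F) (M := M) l hl hkl hd
  refine ⟨M, hM, g, hMG, ?_⟩
  exact FrobeniusTransfer.result M F k hMG hkF hFM g fun i j hij =>
    hg i j fun x => hij (algebraMap k F x) x.2

end Pool.Agent.Results.MP_d0239a_nt.PrimeDegreeExtensions
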